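import Pool.Agent.Helper93.NS.VarLow
import Pool.Agent.Helper82.NS.Geo

/-!
# OPT, block O7: the test sequence `m_p` and Cauchy-Schwarz
-/

set_option autoImplicit false
open MeasureTheory Set Filter Topology
open Pool.Agent.Helper57.TX (QX)
open Pool.Agent.Helper93.NS (mem_QX)

namespace Pool.Agent.Helper28.OPT

/-- sum of `1/p`, upper bound -/
lemma recip_sum_up : ∃ E : ℝ, 0 < E ∧ ∀ a b : ℝ, 1 ≤ a → a ≤ b → ∀ P : Finset ℕ,
    (∀ p : ℕ, p ∈ P ↔ p.Prime ∧ a < Real.log p ∧ Real.log p ≤ b) → ∑ p ∈ P, 1 / (p:ℝ) ≤ Real.log (b / a) + E := by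
  obtain ⟨E, hE, H⟩ := Pool.Agent.Helper7.UV.prime_sum
  refine ⟨E, hE, fun a b ha hab P hP => ?_⟩
  have ha0 : 0 < a := by linarith
  have hb0 : 0 < b := by linarith
  have hne : ∀ u ∈ Icc a b, u ≠ 0 := fun u hu => by linarith [hu.1] |> fun h : 0 < u => h.ne'
  have h1 := H a b ha0.le hab P hP (fun u => u⁻¹) (fun u => -(u ^ 2)⁻¹) (fun u hu => hasDerivAt_inv (hne u hu)) (by
    apply ContinuousOn.neg
    apply ContinuousOn.inv₀ (by fun_prop)
    intro u hu
    exact pow_ne_zero 2 (hne u hu))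
  have h2 : ∑ p ∈ P, Real.log p / p * (Real.log p)⁻¹ = ∑ p ∈ P, 1 / (p:ℝ) := by
    refine Finset.sum_congr rfl fun p hp => ?_
    have h3 := (hP p).1 hp
    have h4 : Real.log p ≠ 0 := by linarith [h3.2.1] |> fun h : 0 < Real.log p => h.ne'
    field_simp
  have h3 : ∫ u in a..b, u⁻¹ = Real.log (b / a) := integral_inv_of_pos ha0 hb0
  have h4 : ∫ u in a..b, |-(u ^ 2)⁻¹| = a⁻¹ - b⁻¹ := by
    have h5 : ∫ u in a..b, |-(u ^ 2)⁻¹| = ∫ u in a..b, (u ^ 2)⁻¹ := by
      congr 1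
      funext u
      rw [abs_neg, abs_of_nonneg (by positivity)]
    rw [h5]
    have h6 := intervalIntegral.integral_eq_sub_of_hasDerivAt (a := a) (b := b) (f := fun u : ℝ => -u⁻¹) (f' := fun u => (u ^ 2)⁻¹)
      (fun u hu => by
        rw [uIcc_of_le hab] at hu
        have := (hasDerivAt_inv (hne u hu)).fun_neg
        rwa [neg_neg] at this) (by
        apply ContinuousOn.intervalIntegrable
        rw [uIcc_of_le hab]
        apply ContinuousOn.inv₀ (by fun_prop)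
        intro u hu
        exact pow_ne_zero 2 (hne u hu))
    rw [h6]
    ring
  rw [h2, h3, h4, abs_of_pos (inv_pos.2 hb0)] at h1
  have h5 := (abs_le.1 h1).2
  have h6 : b⁻¹ + (a⁻¹ - b⁻¹) ≤ 1 := by
    have : a⁻¹ ≤ 1 := inv_le_one_of_one_le₀ ha
    linarith
  have h7 := mul_le_mul_of_nonneg_left h6 hE.le
  linarith

/-- the test sequence -/
noncomputable def mseq (X X' : ℝ) (p : ℕ) : ℝ := max 0 (1 - Real.log p / X) ^ 2 - max 0 (1 - Real.log p / X') ^ 2

lemma mseq_bd {X X' : ℝ} (h : 1 ≤ X') (hX : X' ≤ X) (p : ℕ) (hp : p.Prime) :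
    0 ≤ mseq X X' p ∧ mseq X X' p ≤ 1 ∧ mseq X X' p ≤ 2 * (Real.log p / X') := by
  have hX'0 : 0 < X' := by linarith
  have hX0 : 0 < X := by linarith
  have hl : 0 ≤ Real.log p := Real.log_nonneg (by exact_mod_cast hp.one_lt.le)
  unfold mseq
  set a := Real.log p / X
  set b := Real.log p / X'
  have ha : 0 ≤ a := div_nonneg hl hX0.le
  have hab : a ≤ b := div_le_div_of_nonneg_left hl hX'0 hX
  have h0 : 0 ≤ max 0 (1 - a) := le_max_left _ _
  have h0' : 0 ≤ max 0 (1 - b) := le_max_left _ _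
  have h1 : max 0 (1 - b) ≤ max 0 (1 - a) := max_le_max le_rfl (by linarith)
  have h2 : max 0 (1 - a) ≤ 1 := max_le zero_le_one (by linarith)
  have h3 : 1 - b ≤ max 0 (1 - b) := le_max_right _ _
  refine ⟨by nlinarith, by nlinarith, ?_⟩
  have h4 : max 0 (1 - a) - max 0 (1 - b) ≤ b := by linarith
  nlinarith

theorem msum : ∃ C : ℝ, 0 < C ∧ ∀ X X' : ℝ, 1 ≤ X' → X' ≤ X →
    ∑ p ∈ QX X, mseq X X' p ^ 2 / p ≤ Real.log (X / X') + C := by
  classical
  obtain ⟨E, hE, H⟩ := recip_sum_up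
  obtain ⟨E', hE', H'⟩ := Pool.Agent.Helper82.NS.mert_small
  refine ⟨E + 4 * (1 + E'), by positivity, fun X X' h1 h2 => ?_⟩
  have hX'0 : 0 < X' := by linarith
  have hspl : ∑ p ∈ QX X, mseq X X' p ^ 2 / p = ∑ p ∈ QX X', mseq X X' p ^ 2 / p +
      ∑ p ∈ (QX X).filter (fun p : ℕ => X' < Real.log p), mseq X X' p ^ 2 / p := by
    rw [← Finset.sum_filter_add_sum_filter_not (QX X) (fun p : ℕ => X' < Real.log p), add_comm]
    congr 1
    refine Finset.sum_congr ?_ fun _ _ => rfl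
    ext p
    rw [Finset.mem_filter, mem_QX, mem_QX]
    constructor
    · rintro ⟨⟨h3, h4⟩, h5⟩
      exact ⟨h3, not_lt.1 h5⟩
    · rintro ⟨h3, h4⟩
      exact ⟨⟨h3, h4.trans h2⟩, not_lt.2 h4⟩
  have hb : ∑ p ∈ (QX X).filter (fun p : ℕ => X' < Real.log p), mseq X X' p ^ 2 / p ≤ Real.log (X / X') + E := by
    refine le_trans (Finset.sum_le_sum fun p hp => ?_) (H X' X h1 h2 _ fun p => by
      rw [Finset.mem_filter, mem_QX]
      tauto)
    have hp' := (mem_QX.1 (Finset.mem_filter.1 hp).1).1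
    have hp0 : (0:ℝ) < p := by exact_mod_cast hp'.pos
    obtain ⟨h3, h4, -⟩ := mseq_bd h1 h2 p hp'
    exact div_le_div_of_nonneg_right (pow_le_one₀ h3 h4) hp0.le
  have hs : ∑ p ∈ QX X', mseq X X' p ^ 2 / p ≤ 4 * (1 + E') := by
    have h3 : ∀ p ∈ QX X', mseq X X' p ^ 2 / p ≤ 4 / X' * (Real.log p / p) := by
      intro p hp
      obtain ⟨hp', hpl⟩ := mem_QX.1 hp
      have hp0 : (0:ℝ) < p := by exact_mod_cast hp'.pos
      obtain ⟨h3, h4, h5⟩ := mseq_bd h1 h2 p hp'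
      have hl : 0 ≤ Real.log p := Real.log_nonneg (by exact_mod_cast hp'.one_lt.le)
      have h6 : Real.log p / X' ≤ 1 := (div_le_one hX'0).2 hpl
      have h7 : mseq X X' p ^ 2 ≤ 4 / X' * Real.log p := by
        have h8 : mseq X X' p ^ 2 ≤ (2 * (Real.log p / X')) ^ 2 := pow_le_pow_left₀ h3 h5 2
        have h9 : 0 ≤ Real.log p / X' := div_nonneg hl hX'0.le
        have h10 : (2 * (Real.log p / X')) ^ 2 ≤ 4 * (Real.log p / X') := by nlinarith
        calc _ ≤ _ := h8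
          _ ≤ _ := h10
          _ = _ := by ring
      calc mseq X X' p ^ 2 / p ≤ 4 / X' * Real.log p / p := div_le_div_of_nonneg_right h7 hp0.le
        _ = _ := by ring
    refine (Finset.sum_le_sum h3).trans ?_
    rw [← Finset.mul_sum]
    have h4 := H' X' hX'0.le
    calc 4 / X' * ∑ p ∈ QX X', Real.log p / p ≤ 4 / X' * (X' + E') := mul_le_mul_of_nonneg_left h4 (by positivity)
      _ = 4 + 4 * (E' / X') := by field_simp
      _ ≤ 4 + 4 * E' := by
        have : E' / X' ≤ E' := div_le_self hE'.le h1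
        linarith
      _ = _ := by ring
  rw [hspl]
  linarith

/-- Cauchy-Schwarz: the variance of every prediction is at least `(pairing)^2 / ∑ m_p^2/p`. -/
theorem cs (Q : Finset ℕ) (w : ℕ → ℂ) (m : ℕ → ℝ) :
    (∑ p ∈ Q, (w p).im * m p / p) ^ 2 ≤ (∑ p ∈ Q, ‖w p‖ ^ 2 / p) * ∑ p ∈ Q, m p ^ 2 / p := by
  have h1 := Finset.sum_mul_sq_le_sq_mul_sq Q (fun p => (w p).im / Real.sqrt p) (fun p => m p / Real.sqrt p)
  have h2 : ∀ p : ℕ, (w p).im / Real.sqrt p * (m p / Real.sqrt p) = (w p).im * m p / p := by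
    intro p
    rw [div_mul_div_comm, Real.mul_self_sqrt (Nat.cast_nonneg p)]
  have h3 : ∀ p : ℕ, ((w p).im / Real.sqrt p) ^ 2 = (w p).im ^ 2 / p := by
    intro p
    rw [div_pow, Real.sq_sqrt (Nat.cast_nonneg p)]
  have h4 : ∀ p : ℕ, (m p / Real.sqrt p) ^ 2 = m p ^ 2 / p := by
    intro p
    rw [div_pow, Real.sq_sqrt (Nat.cast_nonneg p)]
  simp only [h2, h3, h4] at h1
  refine h1.trans (mul_le_mul_of_nonneg_right (Finset.sum_le_sum fun p _ => ?_)
    (Finset.sum_nonneg fun p _ => by positivity))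
  refine div_le_div_of_nonneg_right ?_ (Nat.cast_nonneg p)
  have h5 := Complex.abs_im_le_norm (w p)
  rw [← sq_abs (w p).im]
  exact pow_le_pow_left₀ (abs_nonneg _) h5 2

end Pool.Agent.Helper28.OPT
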