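import Mathlib

/-!
# OPT: the sine integral with a smooth cut-off, `∫_0^1 (1-u)^4 sin(A u)/u du = π/2 + O(A^(-1/2))`
-/

set_option autoImplicit false
open MeasureTheory Set Filter Topology

namespace Pool.Agent.Helper28.OPT

lemma int_exp {u : ℝ} (hu : 0 < u) : ∫ s in Ioi (0:ℝ), Real.exp (-(u * s)) = 1 / u := by
  have h := integral_exp_mul_Ioi (a := -u) (by linarith) 0
  rw [show (fun s : ℝ => Real.exp (-(u * s))) = fun s => Real.exp (-u * s) by ext s; ring_nf, h]
  simp

lemma expint {u : ℝ} (hu : 0 < u) : IntegrableOn (fun s => Real.exp (-(u * s))) (Ioi 0) := by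
  have h := integrableOn_exp_mul_Ioi (a := -u) (by linarith) 0
  refine h.congr_fun (fun s _ => ?_) measurableSet_Ioi
  ring_nf

/-- the inner integral -/
lemma inner (A s : ℝ) (hA : 0 < A) : ∫ u in (0:ℝ)..1, (1 - u) ^ 4 * Real.sin (A * u) * Real.exp (-(u * s)) =
    A / (s ^ 2 + A ^ 2) - ∫ u in (0:ℝ)..1, 4 * (1 - u) ^ 3 * (Real.exp (-(u * s)) *
      (s * Real.sin (A * u) + A * Real.cos (A * u)) / (s ^ 2 + A ^ 2)) := by
  have hq : s ^ 2 + A ^ 2 ≠ 0 := by positivity
  have h1 : ∀ u ∈ uIcc (0:ℝ) 1, HasDerivAt (fun u => (1 - u) ^ 4) (-(4 * (1 - u) ^ 3)) u := by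
    intro u _
    have := ((hasDerivAt_id u).const_sub 1).pow 4
    refine this.congr_deriv ?_
    simp only [id]
    push_cast
    ring
  have h2 : ∀ u ∈ uIcc (0:ℝ) 1, HasDerivAt (fun u => -(Real.exp (-(u * s)) *
      (s * Real.sin (A * u) + A * Real.cos (A * u)) / (s ^ 2 + A ^ 2))) (Real.sin (A * u) * Real.exp (-(u * s))) u := by
    intro u _
    have hs : HasDerivAt (fun u => Real.sin (A * u)) (Real.cos (A * u) * A) u := by
      have := (Real.hasDerivAt_sin (A * u)).comp u ((hasDerivAt_id u).const_mul A)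
      simpa [Function.comp_def] using this
    have hc : HasDerivAt (fun u => Real.cos (A * u)) (-Real.sin (A * u) * A) u := by
      have := (Real.hasDerivAt_cos (A * u)).comp u ((hasDerivAt_id u).const_mul A)
      simpa [Function.comp_def] using this
    have he : HasDerivAt (fun u => Real.exp (-(u * s))) (Real.exp (-(u * s)) * (-s)) u := by
      have := (((hasDerivAt_id u).mul_const s).neg).exp
      simpa using this
    have h3 := ((he.mul ((hs.const_mul s).add (hc.const_mul A))).div_const (s ^ 2 + A ^ 2)).neg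
    refine h3.congr_deriv ?_
    simp only [Pi.add_apply]
    field_simp
    ring
  have h3 := intervalIntegral.integral_mul_deriv_eq_deriv_mul h1 h2
    (by apply Continuous.intervalIntegrable; fun_prop) (by apply Continuous.intervalIntegrable; fun_prop)
  have h4 : ∫ u in (0:ℝ)..1, (1 - u) ^ 4 * Real.sin (A * u) * Real.exp (-(u * s)) =
      ∫ u in (0:ℝ)..1, (1 - u) ^ 4 * (Real.sin (A * u) * Real.exp (-(u * s))) := by
    congr 1
    ext u
    ring
  rw [h4, h3]
  have h5 : ∫ u in (0:ℝ)..1, -(4 * (1 - u) ^ 3) * -(Real.exp (-(u * s)) *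
      (s * Real.sin (A * u) + A * Real.cos (A * u)) / (s ^ 2 + A ^ 2)) =
      ∫ u in (0:ℝ)..1, 4 * (1 - u) ^ 3 * (Real.exp (-(u * s)) *
      (s * Real.sin (A * u) + A * Real.cos (A * u)) / (s ^ 2 + A ^ 2)) := by
    congr 1
    ext u
    ring
  rw [h5]
  simp

lemma abs_tr {A s u : ℝ} (hA : 0 < A) (hs : 0 ≤ s) :
    |(s * Real.sin (A * u) + A * Real.cos (A * u)) / (s ^ 2 + A ^ 2)| ≤ 2 / (s + A) := by
  have hq : 0 < s ^ 2 + A ^ 2 := by positivity
  have h1 : |s * Real.sin (A * u) + A * Real.cos (A * u)| ≤ s + A := by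
    refine (abs_add_le _ _).trans ?_
    rw [abs_mul, abs_mul, abs_of_nonneg hs, abs_of_pos hA]
    have := Real.abs_sin_le_one (A * u)
    have := Real.abs_cos_le_one (A * u)
    nlinarith
  rw [abs_div, abs_of_pos hq, div_le_div_iff₀ hq (by linarith)]
  have h2 : |s * Real.sin (A * u) + A * Real.cos (A * u)| * (s + A) ≤ (s + A) * (s + A) :=
    mul_le_mul_of_nonneg_right h1 (by linarith)
  nlinarith [sq_nonneg (s - A)]

lemma exp_int_le {s : ℝ} (hs : 0 ≤ s) : ∫ u in (0:ℝ)..1, Real.exp (-(u * s)) ≤ 2 / (1 + s) := by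
  rcases le_or_gt s 1 with h | h
  · have h1 : ∫ u in (0:ℝ)..1, Real.exp (-(u * s)) ≤ ∫ u in (0:ℝ)..1, (1:ℝ) := by
      apply intervalIntegral.integral_mono_on (by norm_num)
      · apply Continuous.intervalIntegrable; fun_prop
      · simp
      · intro u hu
        rw [Real.exp_le_one_iff]
        have := mul_nonneg hu.1 hs
        linarith
    have h2 : (1:ℝ) ≤ 2 / (1 + s) := by
      rw [le_div_iff₀ (by linarith)]; linarith
    simpa using h1.trans (by simpa using h2)
  · have hs0 : s ≠ 0 := by linarith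
    have h1 : ∫ u in (0:ℝ)..1, Real.exp (-(u * s)) = (1 - Real.exp (-s)) / s := by
      have hd : ∀ u ∈ uIcc (0:ℝ) 1, HasDerivAt (fun u => -(Real.exp (-(u * s)) / s)) (Real.exp (-(u * s))) u := by
        intro u _
        have he : HasDerivAt (fun u => Real.exp (-(u * s))) (Real.exp (-(u * s)) * (-s)) u := by
          have := (((hasDerivAt_id u).mul_const s).neg).exp
          simpa using this
        refine ((he.div_const s).neg).congr_deriv ?_
        field_simp
      rw [intervalIntegral.integral_eq_sub_of_hasDerivAt hd (by apply Continuous.intervalIntegrable; fun_prop)]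
      simp
      field_simp
      ring
    rw [h1, div_le_div_iff₀ (by linarith) (by linarith)]
    have := Real.exp_pos (-s)
    nlinarith

lemma rem_le {A s : ℝ} (hA : 1 ≤ A) (hs : 0 ≤ s) :
    |∫ u in (0:ℝ)..1, 4 * (1 - u) ^ 3 * (Real.exp (-(u * s)) *
      (s * Real.sin (A * u) + A * Real.cos (A * u)) / (s ^ 2 + A ^ 2))| ≤ 16 / Real.sqrt A * (1 + s) ^ (-(3 / 2) : ℝ) := by
  have hA0 : 0 < A := by linarith
  have h1 : |∫ u in (0:ℝ)..1, 4 * (1 - u) ^ 3 * (Real.exp (-(u * s)) *
      (s * Real.sin (A * u) + A * Real.cos (A * u)) / (s ^ 2 + A ^ 2))| ≤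
      ∫ u in (0:ℝ)..1, 8 / (s + A) * Real.exp (-(u * s)) := by
    rw [← Real.norm_eq_abs]
    refine intervalIntegral.norm_integral_le_of_norm_le (by norm_num) ?_
      (by apply Continuous.intervalIntegrable; fun_prop)
    filter_upwards with u hu
    rw [Real.norm_eq_abs]
    have h2 := abs_tr (u := u) hA0 hs
    have h3 : |4 * (1 - u) ^ 3| ≤ 4 := by
      have h5 : 0 ≤ 1 - u := by linarith [hu.2]
      have h6 : 1 - u ≤ 1 := by linarith [hu.1]
      rw [abs_of_nonneg (by positivity)]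
      have := pow_le_one₀ (n := 3) h5 h6
      linarith
    have h4 : 4 * (1 - u) ^ 3 * (Real.exp (-(u * s)) *
        (s * Real.sin (A * u) + A * Real.cos (A * u)) / (s ^ 2 + A ^ 2)) =
        (4 * (1 - u) ^ 3) * ((s * Real.sin (A * u) + A * Real.cos (A * u)) / (s ^ 2 + A ^ 2)) * Real.exp (-(u * s)) := by
      ring
    rw [h4, abs_mul, abs_mul, abs_of_pos (Real.exp_pos _)]
    refine mul_le_mul_of_nonneg_right ?_ (Real.exp_pos _).le
    calc _ ≤ 4 * (2 / (s + A)) := mul_le_mul h3 h2 (abs_nonneg _) (by norm_num)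
      _ = 8 / (s + A) := by ring
  refine h1.trans ?_
  rw [intervalIntegral.integral_const_mul]
  have h2 := exp_int_le hs
  have hsA : 0 < s + A := by linarith
  have h3 : 8 / (s + A) * ∫ u in (0:ℝ)..1, Real.exp (-(u * s)) ≤ 8 / (s + A) * (2 / (1 + s)) :=
    mul_le_mul_of_nonneg_left h2 (by positivity)
  refine h3.trans ?_
  have h1s : 0 < 1 + s := by linarith
  have h4 : (1 + s) ^ (-(3 / 2) : ℝ) = 1 / ((1 + s) * Real.sqrt (1 + s)) := by
    rw [Real.rpow_neg h1s.le, show (3 / 2 : ℝ) = 1 + 1 / 2 by norm_num, Real.rpow_add h1s, Real.rpow_one,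
      ← Real.sqrt_eq_rpow, one_div]
  have h5 : Real.sqrt A * Real.sqrt (1 + s) ≤ s + A := by
    rw [← Real.sqrt_mul hA0.le]
    apply Real.sqrt_le_iff.mpr
    refine ⟨hsA.le, ?_⟩
    nlinarith
  have hsqA : 0 < Real.sqrt A := Real.sqrt_pos.mpr hA0
  have hsqs : 0 < Real.sqrt (1 + s) := Real.sqrt_pos.mpr h1s
  rw [h4]
  have h6 : 8 / (s + A) * (2 / (1 + s)) = 16 / ((s + A) * (1 + s)) := by
    field_simp
    ring
  have h7 : 16 / Real.sqrt A * (1 / ((1 + s) * Real.sqrt (1 + s))) =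
      16 / (Real.sqrt A * Real.sqrt (1 + s) * (1 + s)) := by
    field_simp
  rw [h6, h7]
  apply div_le_div_of_nonneg_left (by norm_num) (by positivity)
  exact mul_le_mul_of_nonneg_right h5 h1s.le

lemma int_cauchy {A : ℝ} (hA : 0 < A) : IntegrableOn (fun s => A / (s ^ 2 + A ^ 2)) (Ioi 0) ∧
    ∫ s in Ioi (0:ℝ), A / (s ^ 2 + A ^ 2) = Real.pi / 2 := by
  have hd : ∀ x ∈ Ici (0:ℝ), HasDerivAt (fun s => Real.arctan (s / A)) (A / (x ^ 2 + A ^ 2)) x := by
    intro x _
    have := ((hasDerivAt_id x).div_const A).arctan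
    refine this.congr_deriv ?_
    simp only [id]
    field_simp
    ring
  have ht : Tendsto (fun s => Real.arctan (s / A)) atTop (𝓝 (Real.pi / 2)) := by
    have h1 : Tendsto (fun s : ℝ => s / A) atTop atTop := tendsto_id.atTop_div_const hA
    exact (Real.tendsto_arctan_atTop.mono_right nhdsWithin_le_nhds).comp h1
  have hpos : ∀ x ∈ Ioi (0:ℝ), 0 ≤ A / (x ^ 2 + A ^ 2) := fun x _ => by positivity
  constructor
  · exact integrableOn_Ioi_deriv_of_nonneg' hd hpos ht
  · rw [integral_Ioi_of_hasDerivAt_of_nonneg' hd hpos ht]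
    simp

lemma int_bd : IntegrableOn (fun s : ℝ => (1 + s) ^ (-(3 / 2) : ℝ)) (Ioi 0) ∧
    ∫ s in Ioi (0:ℝ), (1 + s) ^ (-(3 / 2) : ℝ) = 2 := by
  have hd : ∀ x ∈ Ici (0:ℝ), HasDerivAt (fun s : ℝ => -(2 * (1 + s) ^ (-(1 / 2) : ℝ))) ((1 + x) ^ (-(3 / 2) : ℝ)) x := by
    intro x hx
    have hx0 : (0:ℝ) ≤ x := hx
    have h1 : HasDerivAt (fun s : ℝ => 1 + s) 1 x := by simpa using (hasDerivAt_id x).const_add 1
    have h2 := ((h1.rpow_const (p := (-(1 / 2) : ℝ)) (Or.inl (by positivity))).const_mul 2).neg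
    refine h2.congr_deriv ?_
    rw [show (-(1 / 2) - 1 : ℝ) = -(3 / 2) by norm_num]
    ring
  have ht : Tendsto (fun s : ℝ => -(2 * (1 + s) ^ (-(1 / 2) : ℝ))) atTop (𝓝 0) := by
    have h1 : Tendsto (fun s : ℝ => 1 + s) atTop atTop := tendsto_atTop_add_const_left _ _ tendsto_id
    have h2 := ((tendsto_rpow_neg_atTop (y := (1 / 2 : ℝ)) (by norm_num)).comp h1).const_mul 2
    have h3 := h2.neg
    simpa [Function.comp_def] using h3
  have hpos : ∀ x ∈ Ioi (0:ℝ), 0 ≤ (1 + x) ^ (-(3 / 2) : ℝ) := fun x hx => by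
    have hx0 : (0:ℝ) < x := hx
    positivity
  constructor
  · exact integrableOn_Ioi_deriv_of_nonneg' hd hpos ht
  · rw [integral_Ioi_of_hasDerivAt_of_nonneg' hd hpos ht]
    simp

lemma prod_int {A : ℝ} (hA : 0 < A) : Integrable (Function.uncurry fun (u s : ℝ) =>
    (1 - u) ^ 4 * Real.sin (A * u) * Real.exp (-(u * s)))
    ((volume.restrict (Ioc (0:ℝ) 1)).prod (volume.restrict (Ioi (0:ℝ)))) := by
  have hm : Continuous (Function.uncurry fun (u s : ℝ) => (1 - u) ^ 4 * Real.sin (A * u) * Real.exp (-(u * s))) := by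
    unfold Function.uncurry
    fun_prop
  rw [integrable_prod_iff hm.aestronglyMeasurable]
  constructor
  · filter_upwards [ae_restrict_mem measurableSet_Ioc] with u hu
    exact (expint hu.1).const_mul ((1 - u) ^ 4 * Real.sin (A * u))
  · have h1 : ∀ᵐ u ∂(volume.restrict (Ioc (0:ℝ) 1)), ∫ s in Ioi (0:ℝ), ‖Function.uncurry (fun (u s : ℝ) =>
        (1 - u) ^ 4 * Real.sin (A * u) * Real.exp (-(u * s))) (u, s)‖ = |(1 - u) ^ 4 * Real.sin (A * u)| * (1 / u) := by
      filter_upwards [ae_restrict_mem measurableSet_Ioc] with u hu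
      rw [← int_exp hu.1, ← integral_const_mul]
      refine integral_congr_ae (Eventually.of_forall fun s => ?_)
      simp only [Function.uncurry_apply_pair, Real.norm_eq_abs]
      rw [abs_mul, abs_of_pos (Real.exp_pos _)]
    rw [integrable_congr h1]
    refine Integrable.mono' (g := fun _ => A) (integrable_const _) ?_ ?_
    · apply Measurable.aestronglyMeasurable
      fun_prop
    · filter_upwards [ae_restrict_mem measurableSet_Ioc] with u hu
      have hu0 := hu.1
      rw [Real.norm_eq_abs, abs_mul, abs_abs, abs_of_pos (show 0 < 1 / u by positivity), abs_mul]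
      have h2 : |Real.sin (A * u)| ≤ A * u := by
        have := Real.abs_sin_le_abs (x := A * u)
        rwa [abs_of_pos (by positivity : 0 < A * u)] at this
      have h3 : |(1 - u) ^ 4| ≤ 1 := by
        rw [abs_of_nonneg (by positivity)]
        exact pow_le_one₀ (by linarith [hu.2]) (by linarith)
      calc |(1 - u) ^ 4| * |Real.sin (A * u)| * (1 / u) ≤ 1 * (A * u) * (1 / u) :=
            mul_le_mul_of_nonneg_right (mul_le_mul h3 h2 (abs_nonneg _) zero_le_one) (by positivity)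
        _ = A := by field_simp

theorem sine_int {A : ℝ} (hA : 1 ≤ A) :
    |(∫ u in (0:ℝ)..1, (1 - u) ^ 4 * Real.sin (A * u) / u) - Real.pi / 2| ≤ 32 / Real.sqrt A := by
  have hA0 : 0 < A := by linarith
  have hI := prod_int hA0
  set R : ℝ → ℝ := fun s => ∫ u in (0:ℝ)..1, 4 * (1 - u) ^ 3 * (Real.exp (-(u * s)) *
      (s * Real.sin (A * u) + A * Real.cos (A * u)) / (s ^ 2 + A ^ 2)) with hR
  have h1 : ∫ u in (0:ℝ)..1, (1 - u) ^ 4 * Real.sin (A * u) / u =
      ∫ s in Ioi (0:ℝ), ∫ u in Ioc (0:ℝ) 1, (1 - u) ^ 4 * Real.sin (A * u) * Real.exp (-(u * s)) := by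
    rw [← integral_integral_swap hI, intervalIntegral.integral_of_le zero_le_one]
    refine setIntegral_congr_fun measurableSet_Ioc fun u hu => ?_
    beta_reduce
    rw [integral_const_mul, int_exp hu.1]
    ring
  have h2 : ∀ s : ℝ, ∫ u in Ioc (0:ℝ) 1, (1 - u) ^ 4 * Real.sin (A * u) * Real.exp (-(u * s)) =
      A / (s ^ 2 + A ^ 2) - R s := by
    intro s
    rw [← intervalIntegral.integral_of_le zero_le_one, inner A s hA0]
  have hG : Integrable (fun s => ∫ u in Ioc (0:ℝ) 1, (1 - u) ^ 4 * Real.sin (A * u) * Real.exp (-(u * s)))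
      (volume.restrict (Ioi 0)) := hI.integral_prod_right
  obtain ⟨hc1, hc2⟩ := int_cauchy hA0
  obtain ⟨hb1, hb2⟩ := int_bd
  have hRi : Integrable R (volume.restrict (Ioi 0)) := by
    refine (hc1.sub hG).congr (Eventually.of_forall fun s => ?_)
    simp only [Pi.sub_apply]
    rw [h2 s]
    ring
  rw [h1]
  simp_rw [h2]
  rw [integral_sub hc1 hRi, hc2, sub_sub_cancel_left, abs_neg, ← Real.norm_eq_abs]
  refine (norm_integral_le_of_norm_le (hb1.const_mul (16 / Real.sqrt A)) ?_).trans ?_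
  · filter_upwards [ae_restrict_mem measurableSet_Ioi] with s hs
    rw [Real.norm_eq_abs]
    exact rem_le hA (le_of_lt hs)
  · rw [integral_const_mul, hb2]
    apply le_of_eq
    ring

end Pool.Agent.Helper28.OPT
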